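import Mathlib

/-!
# MP_5ecade: the unique minimal normal subgroup modulo the center
-/

set_option autoImplicit false

open scoped commutatorElement

namespace Pool.Agent.Helper81.MR

/-- a minimal normal subgroup above the center -/
theorem exists_mono {G : Type} [Group G] [Finite G] (hne : Subgroup.center G ≠ ⊤) :
    ∃ M : Subgroup G, M.Normal ∧ Subgroup.center G < M ∧
      ∀ K : Subgroup G, K.Normal → Subgroup.center G < K → K ≤ M → K = M := by
  obtain ⟨M, hM⟩ := (Set.toFinite {K : Subgroup G | K.Normal ∧ Subgroup.center G < K}).exists_minimal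
    ⟨⊤, inferInstance, lt_top_iff_ne_top.2 hne⟩
  refine ⟨M, hM.prop.1, hM.prop.2, fun K hK hZ hKM => ?_⟩
  exact le_antisymm hKM (hM.le_of_le ⟨hK, hZ⟩ hKM)

/-- commutators with an element which acts trivially modulo the center -/
theorem comm_of_central {G : Type} [Group G] (n a b : G) (ha : n * a * n⁻¹ * a⁻¹ ∈ Subgroup.center G)
    (hb : n * b * n⁻¹ * b⁻¹ ∈ Subgroup.center G) : n * (a * b * a⁻¹ * b⁻¹) = a * b * a⁻¹ * b⁻¹ * n := by
  obtain ⟨z, hz⟩ : ∃ z, z = n * a * n⁻¹ * a⁻¹ := ⟨_, rfl⟩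
  obtain ⟨w, hw⟩ : ∃ w, w = n * b * n⁻¹ * b⁻¹ := ⟨_, rfl⟩
  rw [← hz] at ha
  rw [← hw] at hb
  have hz' : ∀ g : G, g * z = z * g := fun g => Subgroup.mem_center_iff.1 ha g
  have hw' : ∀ g : G, g * w = w * g := fun g => Subgroup.mem_center_iff.1 hb g
  have e1 : n * a * n⁻¹ = z * a := by rw [hz]; group
  have e2 : n * b * n⁻¹ = w * b := by rw [hw]; group
  have e3 : n * (a * b * a⁻¹ * b⁻¹) * n⁻¹ = (n * a * n⁻¹) * (n * b * n⁻¹) * (n * a * n⁻¹)⁻¹ * (n * b * n⁻¹)⁻¹ := by
    group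
  have e4 : (z * a) * (w * b) * (z * a)⁻¹ * (w * b)⁻¹ = a * b * a⁻¹ * b⁻¹ := by
    have h1 : (z * a) * (w * b) * (z * a)⁻¹ * (w * b)⁻¹ =
        (z * (a * w * b * a⁻¹)) * z⁻¹ * (b⁻¹ * w⁻¹) := by group
    have h2 : a * w * b * a⁻¹ * (b⁻¹ * w⁻¹) = (a * w) * (b * a⁻¹ * b⁻¹) * w⁻¹ := by group
    have h3 : (w * a) * (b * a⁻¹ * b⁻¹) * w⁻¹ = (w * (a * b * a⁻¹ * b⁻¹)) * w⁻¹ := by group
    rw [h1, ← hz' (a * w * b * a⁻¹), mul_inv_cancel_right, h2, hw' a, h3, ← hw' (a * b * a⁻¹ * b⁻¹),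
      mul_inv_cancel_right]
  rw [e1, e2, e4] at e3
  exact mul_inv_eq_iff_eq_mul.1 e3

theorem mono {G : Type} [Group G] (M : Subgroup G) [M.Normal]
    (hmin : ∀ K : Subgroup G, K.Normal → Subgroup.center G < K → K ≤ M → K = M)
    (hZ : Subgroup.center G < M)
    (hna : ¬ ∀ a ∈ M, ∀ b ∈ M, a * b * a⁻¹ * b⁻¹ ∈ Subgroup.center G)
    (hC : Subgroup.centralizer (M : Set G) = Subgroup.center G)
    (N : Subgroup G) (hN : N.Normal) (hNc : ¬ N ≤ Subgroup.center G) : M ≤ N ⊔ Subgroup.center G := by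
  set N' : Subgroup G := N ⊔ Subgroup.center G with hN'
  have hN'n : N'.Normal := inferInstance
  have hZN : Subgroup.center G ≤ N' := le_sup_right
  have hIn : (N' ⊓ M).Normal := inferInstance
  rcases (le_inf hZN hZ.le).lt_or_eq with hlt | heq
  · have h1 := hmin (N' ⊓ M) hIn hlt inf_le_right
    rw [← h1]
    exact inf_le_left
  · exfalso
    -- `N'` centralizes `M`
    have hcom : ∀ n ∈ N', ∀ a ∈ M, n * a * n⁻¹ * a⁻¹ ∈ Subgroup.center G := by
      intro n hn a ha
      rw [heq]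
      refine ⟨?_, ?_⟩
      · have h1 : a * n⁻¹ * a⁻¹ ∈ N' := hN'n.conj_mem _ (N'.inv_mem hn) a
        have h2 : n * a * n⁻¹ * a⁻¹ = n * (a * n⁻¹ * a⁻¹) := by group
        rw [h2]
        exact N'.mul_mem hn h1
      · exact M.mul_mem (Subgroup.Normal.conj_mem inferInstance a ha n) (M.inv_mem ha)
    have hCn : (Subgroup.centralizer (N' : Set G)).Normal := inferInstance
    have hKn : (Subgroup.centralizer (N' : Set G) ⊓ M).Normal := inferInstance
    have hKZ : Subgroup.center G < Subgroup.centralizer (N' : Set G) ⊓ M := by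
      refine lt_of_le_of_ne (le_inf ?_ hZ.le) ?_
      · intro z hz
        rw [Subgroup.mem_centralizer_iff]
        intro x _
        exact Subgroup.mem_center_iff.1 hz x
      · intro hEq
        apply hna
        intro a ha b hb
        rw [hEq]
        refine Subgroup.mem_inf.2 ⟨Subgroup.mem_centralizer_iff.2 ?_, ?_⟩
        · intro n hn
          exact comm_of_central n a b (hcom n hn a ha) (hcom n hn b hb)
        · exact M.mul_mem (M.mul_mem (M.mul_mem ha hb) (M.inv_mem ha)) (M.inv_mem hb)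
    have h2 := hmin _ hKn hKZ inf_le_right
    have h3 : N' ≤ Subgroup.centralizer (M : Set G) := by
      intro n hn
      rw [Subgroup.mem_centralizer_iff]
      intro a ha
      have h4 : a ∈ Subgroup.centralizer (N' : Set G) ⊓ M := by rw [h2]; exact ha
      exact (Subgroup.mem_centralizer_iff.1 h4.1 n hn).symm
    rw [hC] at h3
    exact hNc (le_sup_left.trans h3)

/-- `M` is perfect modulo the center -/
theorem perfect_mod {G : Type} [Group G] (M : Subgroup G) [M.Normal]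
    (hmin : ∀ K : Subgroup G, K.Normal → Subgroup.center G < K → K ≤ M → K = M)
    (hZ : Subgroup.center G < M)
    (hna : ¬ ∀ a ∈ M, ∀ b ∈ M, a * b * a⁻¹ * b⁻¹ ∈ Subgroup.center G) :
    ⁅M, M⁆ ⊔ Subgroup.center G = M := by
  refine hmin _ inferInstance ?_ (sup_le (Subgroup.commutator_le_left M M) hZ.le)
  refine lt_of_le_of_ne le_sup_right ?_
  intro h
  apply hna
  intro a ha b hb
  rw [h]
  exact Subgroup.mem_sup_left (Subgroup.commutator_mem_commutator ha hb)

end Pool.Agent.Helper81.MR
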