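import Pool.Agent.Helper24.UN.Full
import Pool.Agent.Helper81.AN.TrS

/-!
# MP_5ecade: the monolith of a minimal counterexample
-/

set_option autoImplicit false

open scoped Pointwise IsMulCommutative commutatorElement

namespace Pool.Agent.Helper81.MR

open Pool.Agent.Helper42.INC Pool.Agent.Helper68.BR Pool.Agent.Helper24.UN Pool.Agent.Helper7.MK
  Pool.Agent.Helper24.S7 Pool.Agent.Helper57.AN

/-- the class of simple groups used: none besides the alternating groups and `PSL(2, k)` -/
def NoS (F : Type) [Group F] : Prop := False ∧ Nonempty F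

theorem noS_iso : IsoCl (fun F [Group F] => NoS F) := by
  intro X Y _ _ _ h
  exact absurd h.1 id

variable {p : ℕ} {S : (F : Type) → [Group F] → Prop}

/-- finite `p`-groups have a series with abelian factors -/
theorem cls_pgroup [Fact p.Prime] (hS : IsoCl S) : ∀ (m : ℕ) (X : Type) [Group X] [Finite X],
    Nat.card X = m → IsPGroup p X → ClsG p S X := by
  intro m
  induction m using Nat.strong_induction_on with
  | _ m ih =>
    intro X _ _ hm hX
    rcases subsingleton_or_nontrivial X with h | h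
    · exact ClsG.triv X
    · have hc : Nontrivial (Subgroup.center X) := hX.center_nontrivial
      have h1 : ClsG p S (Subgroup.center X) := by
        refine ClsG.of_comm hS ?_
        intro a b
        exact Subtype.ext (Subgroup.mem_center_iff.1 b.2 a.1)
      have h2 : ClsG p S (X ⧸ Subgroup.center X) := by
        refine ih (Nat.card (X ⧸ Subgroup.center X)) ?_ _ rfl (hX.to_quotient _)
        rw [← hm, Subgroup.card_eq_card_quotient_mul_card_subgroup (Subgroup.center X)]
        have h3 : 1 < Nat.card (Subgroup.center X) := Finite.one_lt_card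
        have h4 : 0 < Nat.card (X ⧸ Subgroup.center X) := Nat.card_pos
        nlinarith
      refine ClsG.extn hS (QuotientGroup.mk' (Subgroup.center X)) (QuotientGroup.mk'_surjective _) ?_ h2
      rw [QuotientGroup.ker_mk']
      exact h1

/-- finite groups with a normal Sylow `p`-subgroup are in the class -/
theorem ccg_closed [Fact p.Prime] (hS : IsoCl S) {X : Type} [Group X] [Finite X] (Q : Sylow p X)
    (hQ : (Q : Subgroup X).Normal) : CCG p S X := by
  refine ccg_extn hS (QuotientGroup.mk' (Q : Subgroup X)) (QuotientGroup.mk'_surjective _) ?_ ?_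
  · rw [QuotientGroup.ker_mk']
    intro H _
    exact cls_pgroup hS _ H rfl (Q.isPGroup'.to_subgroup H)
  · intro H _
    refine ClsG.of_fac hS (Or.inr (Or.inl ?_))
    intro P
    have h1 : ¬ p ∣ Nat.card (X ⧸ (Q : Subgroup X)) := Q.not_dvd_index
    have h2 : ¬ p ∣ Nat.card H := fun h => h1 (h.trans (Subgroup.card_subgroup_dvd_card H))
    have h3 : Nat.card P = 1 := by
      obtain ⟨k, hk⟩ := IsPGroup.iff_card.1 P.isPGroup'
      rcases k with _ | k
      · rw [hk, pow_zero]
      · exfalso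
        apply h2
        refine dvd_trans ?_ (Subgroup.card_subgroup_dvd_card (P : Subgroup H))
        rw [hk]
        exact dvd_pow_self p (Nat.succ_ne_zero k)
    have h4 : Subsingleton P := (Nat.card_eq_one_iff_unique.1 h3).1
    infer_instance

/-- the image of a Sylow subgroup modulo a supplement of its normalizer is normal -/
theorem map_normal [Fact p.Prime] {G : Type} [Group G] [Finite G] (M : Subgroup G) [M.Normal]
    (P : Sylow p G) (h : M ⊔ Subgroup.normalizer (P : Set G) = ⊤) :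
    ((P.mapSurjective (QuotientGroup.mk'_surjective M) : Sylow p (G ⧸ M)) : Subgroup (G ⧸ M)).Normal := by
  have hcoe : ((P.mapSurjective (QuotientGroup.mk'_surjective M) : Sylow p (G ⧸ M)) :
      Subgroup (G ⧸ M)) = (P : Subgroup G).map (QuotientGroup.mk' M) :=
    Sylow.coe_mapSurjective _ P
  rw [hcoe]
  refine ⟨?_⟩
  rintro _ ⟨y, hy, rfl⟩ g
  obtain ⟨g, rfl⟩ := QuotientGroup.mk'_surjective M g
  have hg : g ∈ M ⊔ Subgroup.normalizer (P : Set G) := by rw [h]; trivial
  obtain ⟨m, hm, n, hn, rfl⟩ := Subgroup.mem_sup_of_normal_left.1 hg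
  have hm1 : QuotientGroup.mk' M m = 1 := (QuotientGroup.eq_one_iff m).2 hm
  rw [map_mul, hm1, one_mul]
  have h1 : n * y * n⁻¹ ∈ (P : Subgroup G) := (Subgroup.mem_normalizer_iff.1 hn y).1 hy
  have h2 : QuotientGroup.mk' M (n * y * n⁻¹) ∈ (P : Subgroup G).map (QuotientGroup.mk' M) :=
    Subgroup.mem_map_of_mem _ h1
  rw [map_mul, map_mul, map_inv] at h2
  exact h2

/-- the factors: abelian, or with cyclic Sylow `p`-subgroups, or alternating, or `PSL(2, k)` -/
def Alw0 (p : ℕ) (F : Type) [Group F] : Prop :=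
  (∀ a b : F, a * b = b * a) ∨ (∀ P : Sylow p F, IsCyclic P) ∨
    (∃ m : ℕ, Nonempty (F ≃* alternatingGroup (Fin m))) ∨
    (∃ (k : Type) (_ : Field k) (_ : Finite k),
      Nonempty (F ≃* Matrix.ProjectiveSpecialLinearGroup (Fin 2) k))

theorem ccg_of_series [Fact p.Prime] (h5 : 5 ≤ p) {X : Type} [Group X] [Finite X]
    (h : HSer (fun F [Group F] => Alw0 p F) X) :
    CCG p (fun F [Group F] => AS p (fun F [Group F] => NoS F) F) X := by
  refine ser_ccg (by omega) noS_iso ?_
  obtain ⟨n, M, h0, h1, hs⟩ := h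
  refine ⟨n, M, h0, h1, fun i hi => ?_⟩
  obtain ⟨h2, h3, h4⟩ := hs i hi
  refine ⟨h2, h3, ?_⟩
  rcases h4 with h | h | h | h
  · exact Or.inl h
  · exact Or.inr (Or.inl h)
  · exact Or.inr (Or.inr (Or.inl h))
  · exact Or.inr (Or.inr (Or.inr (Or.inl h)))

/-- Q1 for groups in the class -/
theorem mcKay_ccg [Fact p.Prime] (h5 : 5 ≤ p) {X : Type} [Group X] [Finite X]
    (h : CCG p (fun F [Group F] => AS p (fun F [Group F] => NoS F) F) X) : McKayCongr p X := by
  have hp2 : p ≠ 2 := by omega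
  refine final_ccg (as_iso (by omega) noS_iso) ?_ X h
  intro F _ hF hF' hFS K _ _ hK he hz hpK
  rcases hFS with (⟨m, hm, ⟨e⟩⟩ | ⟨k, _, _, _, h4, ⟨e⟩⟩) | h
  · exact pgood_congr e (Pool.Agent.Helper81.AN.pgood_all p h5 m hm) K hK he hz
  · exact pgood_congr e (Pool.Agent.Helper57.PL.pgood_of hp2 (Pool.Agent.Helper55.PL.slGood p hp2 k)) K hK he hz
  · exact absurd h.1 id

/-- abelian or with cyclic Sylow `p`-subgroups -/
def AC (p : ℕ) (F : Type) [Group F] : Prop := (∀ a b : F, a * b = b * a) ∨ (∀ P : Sylow p F, IsCyclic P)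

theorem ser_mono {R R' : (F : Type) → [Group F] → Prop} (hR : ∀ (F : Type) [Group F], R F → R' F)
    {X : Type} [Group X] (h : HSer R X) : HSer R' X := by
  obtain ⟨n, M, h0, h1, hs⟩ := h
  refine ⟨n, M, h0, h1, fun i hi => ?_⟩
  obtain ⟨h2, h3, h4⟩ := hs i hi
  exact ⟨h2, h3, hR _ h4⟩

/-- the series `1, K, X` -/
theorem ser_two {R : (F : Type) → [Group F] → Prop} {X : Type} [Group X] (K : Subgroup X) [K.Normal]
    (h1 : R (K ⧸ (⊥ : Subgroup X).subgroupOf K))
    (h2 : R ((⊤ : Subgroup X) ⧸ K.subgroupOf (⊤ : Subgroup X))) : HSer R X := by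
  refine ⟨2, fun i => Nat.casesOn i ⊥ (fun j => Nat.casesOn j K (fun _ => ⊤)), rfl, rfl, ?_⟩
  intro i hi
  have h : i = 0 ∨ i = 1 := by omega
  rcases h with rfl | rfl
  · exact ⟨bot_le, (inferInstance : ((⊥ : Subgroup X).subgroupOf K).Normal), h1⟩
  · exact ⟨le_top, (inferInstance : (K.subgroupOf (⊤ : Subgroup X)).Normal), h2⟩

/-- the series `1, X` -/
theorem ser_one {R : (F : Type) → [Group F] → Prop} {X : Type} [Group X]
    (h1 : R ((⊤ : Subgroup X) ⧸ (⊥ : Subgroup X).subgroupOf (⊤ : Subgroup X))) : HSer R X := by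
  refine ⟨1, fun i => Nat.casesOn i ⊥ (fun _ => ⊤), rfl, rfl, ?_⟩
  intro i hi
  have h : i = 0 := by omega
  subst h
  exact ⟨le_top, (inferInstance : ((⊥ : Subgroup X).subgroupOf (⊤ : Subgroup X)).Normal), h1⟩

/-- a central extension of an abelian group has a series with abelian factors -/
theorem ser_of_comm {X : Type} [Group X] (K : Subgroup X) [K.Normal] (hK : ∀ a ∈ K, ∀ b ∈ K, a * b = b * a)
    (h : ∀ a b : X, a * b * a⁻¹ * b⁻¹ ∈ K) : HSer (fun F [Group F] => AC p F) X := by
  refine ser_two K (Or.inl ?_) (Or.inl ?_)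
  · intro a b
    obtain ⟨a, rfl⟩ := QuotientGroup.mk'_surjective _ a
    obtain ⟨b, rfl⟩ := QuotientGroup.mk'_surjective _ b
    rw [← map_mul, ← map_mul]
    congr 1
    exact Subtype.ext (hK a a.2 b b.2)
  · intro a b
    obtain ⟨a, rfl⟩ := QuotientGroup.mk'_surjective _ a
    obtain ⟨b, rfl⟩ := QuotientGroup.mk'_surjective _ b
    rw [← map_mul, ← map_mul]
    refine (QuotientGroup.eq (s := K.subgroupOf (⊤ : Subgroup X))).2 ?_
    rw [Subgroup.mem_subgroupOf]
    have h1 := h (b⁻¹ : ↥(⊤ : Subgroup X)) (a⁻¹ : ↥(⊤ : Subgroup X))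
    have h2 : (((a * b)⁻¹ * (b * a) : ↥(⊤ : Subgroup X)) : X) =
        ((b⁻¹ : ↥(⊤ : Subgroup X)) : X) * ((a⁻¹ : ↥(⊤ : Subgroup X)) : X) *
          ((b⁻¹ : ↥(⊤ : Subgroup X)) : X)⁻¹ * ((a⁻¹ : ↥(⊤ : Subgroup X)) : X)⁻¹ := by
      push_cast
      group
    rw [h2]
    exact h1

/-- groups of order prime to `p` -/
theorem ser_of_coprime [Fact p.Prime] {X : Type} [Group X] [Finite X] (h : ¬ p ∣ Nat.card X) :
    HSer (fun F [Group F] => AC p F) X := by
  refine ser_one (Or.inr ?_)
  intro P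
  have h1 : Nat.card ((⊤ : Subgroup X) ⧸ (⊥ : Subgroup X).subgroupOf (⊤ : Subgroup X)) ∣ Nat.card X :=
    (Subgroup.card_quotient_dvd_card _).trans (Subgroup.card_subgroup_dvd_card _)
  have h3 : Nat.card P = 1 := by
    obtain ⟨k, hk⟩ := IsPGroup.iff_card.1 P.isPGroup'
    rcases k with _ | k
    · rw [hk, pow_zero]
    · exfalso
      apply h
      refine dvd_trans ?_ ((Subgroup.card_subgroup_dvd_card (P : Subgroup _)).trans h1)
      rw [hk]
      exact dvd_pow_self p (Nat.succ_ne_zero k)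
  have h4 : Subsingleton P := (Nat.card_eq_one_iff_unique.1 h3).1
  infer_instance

/-- Q1 if `M` is in the class and `G = M N_G(P)`, `p ≥ 5` -/
theorem mcKay_big [Fact p.Prime] (h5 : 5 ≤ p) {G : Type} [Group G] [Finite G] (M : Subgroup G) [M.Normal]
    (h : HSer (fun F [Group F] => Alw0 p F) M) (P : Sylow p G)
    (hP : M ⊔ Subgroup.normalizer (P : Set G) = ⊤) : McKayCongr p G := by
  refine mcKay_ccg h5 ?_
  refine ccg_extn (as_iso (by omega) noS_iso) (QuotientGroup.mk' M) (QuotientGroup.mk'_surjective M) ?_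
    (ccg_closed (as_iso (by omega) noS_iso) _ (map_normal M P hP))
  rw [QuotientGroup.ker_mk']
  exact ccg_of_series h5 h

end Pool.Agent.Helper81.MR
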