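import Pool.Agent.Helper42.PL.Final
import Pool.Agent.Helper68.BR.FinalG
import Pool.Agent.Helper81.MR.Mono
import Pool.Agent.Helper81.TD.Good
import Pool.Agent.Helper68.TS.Main
import Pool.Agent.Helper68.LI.Main

/-!
# MP_5ecade: the component of a minimal counterexample
-/

set_option autoImplicit false

open scoped Pointwise IsMulCommutative commutatorElement

namespace Pool.Agent.Helper81.MR

open Pool.Agent.Helper42.INC Pool.Agent.Helper7.MK Pool.Agent.Helper24.S7

variable {G : Type} [Group G] [Finite G] {p : ℕ} [Fact p.Prime]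

/-- `K` is contained in every noncentral normal subgroup -/
theorem least_of (K : Subgroup G) (hK : K.Normal) (hperf : ⁅K, K⁆ = K)
    (hmin : ∀ N : Subgroup G, N.Normal → N ≤ K → N ≠ K → N ≤ Subgroup.center G)
    (hC : Subgroup.centralizer (K : Set G) = Subgroup.center G) (N : Subgroup G) (hN : N.Normal)
    (hNc : ¬ N ≤ Subgroup.center G) : K ≤ N := by
  by_contra hle
  apply hNc
  have h1 : (N ⊓ K : Subgroup G) ≤ Subgroup.center G := by
    refine hmin (N ⊓ K) inferInstance inf_le_right ?_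
    intro h
    exact hle (h ▸ inf_le_left)
  have h2 : ⁅N, K⁆ ≤ Subgroup.center G := (Subgroup.commutator_le_inf N K).trans h1
  have h3 : ⁅⁅N, K⁆, K⁆ = ⊥ := by
    rw [Subgroup.commutator_eq_bot_iff_le_centralizer]
    exact h2.trans (Subgroup.center_le_centralizer _)
  have h4 : ⁅⁅K, N⁆, K⁆ = ⊥ := by
    rw [Subgroup.commutator_comm K N]
    exact h3
  have h5 : ⁅⁅K, K⁆, N⁆ = ⊥ := Subgroup.commutator_commutator_eq_bot_of_rotate h4 h3
  rw [hperf] at h5
  rw [Subgroup.commutator_comm, Subgroup.commutator_eq_bot_iff_le_centralizer, hC] at h5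
  exact h5

/-- the structure of a minimal counterexample -/
theorem layer (hcore : Core p G)
    (ih : ∀ (X : Type) [Group X] [Finite X], Smaller X G → McKayCongr p X)
    (hn : ¬ McKayCongr p G)
    (hcen : ∀ M : Subgroup G, M.Normal → p ∣ Nat.card M →
      Subgroup.centralizer (M : Set G) = Subgroup.center G) :
    ∃ K S : Subgroup G, K.Normal ∧ ¬ K ≤ Subgroup.center G ∧
      (∀ N : Subgroup G, N.Normal → ¬ N ≤ Subgroup.center G → K ≤ N) ∧
      Subgroup.centralizer (K : Set G) = Subgroup.center G ∧ Comp K S ∧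
      IsSimpleGroup (S ⧸ Subgroup.center S) ∧ ¬ p ∣ Nat.card (Subgroup.center S) ∧
      p ∣ Nat.card S ∧ ¬ Good p S := by
  obtain ⟨K, hKn, hperf, hne, hmin, hpK⟩ := exists_minK hcore hn
  haveI := hKn
  have hC := hcen K hKn hpK
  have hKc : ¬ K ≤ Subgroup.center G := by
    intro h
    apply hne
    rw [← hperf, Subgroup.commutator_eq_bot_iff_le_centralizer]
    exact h.trans (Subgroup.center_le_centralizer _)
  obtain ⟨S, h1, h2, h3, h4⟩ := exists_min K hperf hne
  have hgen := gen_of_min K hmin S h1 h3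
  have hp := perf_of_min K hperf hne S h1 h2 hgen h4
  have hc : Comp K S := ⟨h1, h2, hp, hgen, comm_of_min K S h1 h2 hp h4⟩
  have hS : S ≠ ⊥ := by
    rintro rfl
    exact h3 bot_le
  refine ⟨K, S, hKn, hKc, least_of K hKn hperf hmin hC, hC, hc, simple_of_min K S hc hS h4,
    not_dvd_center K S hc hperf hne hmin hcore.coprime, dvd_card K S hc hpK, ?_⟩
  intro hgood
  obtain ⟨P⟩ : Nonempty (Sylow p G) := inferInstance
  obtain ⟨L, hL, hNL, hcnt⟩ := comp_step K S hc hgood P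
  have hPL : (P : Subgroup G) ≤ L := Subgroup.le_normalizer.trans hNL
  have hLM : McKayCongr p L := ih L (smaller_sub L hL)
  apply hn
  rw [mcKay_iff P]
  intro s hs
  rw [hcnt s hs, (mcKay_iff (P.subtype hPL)).1 hLM s hs]
  exact cnt_congr (normSubEquiv P L hPL hNL) s

/-- a perfect subgroup as a group -/
theorem perf_top {S : Subgroup G} (h : ⁅S, S⁆ = S) : ⁅(⊤ : Subgroup S), (⊤ : Subgroup S)⁆ = ⊤ := by
  apply Subgroup.map_injective S.subtype_injective
  have h5 := Subgroup.map_subtype_commutator S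
  rw [_root_.commutator_def] at h5
  rw [h5, h, ← MonoidHom.range_eq_map, Subgroup.range_subtype]

/-- the simple quotient of a quasisimple group is not abelian -/
theorem nonab {T : Type} [Group T] [Finite T] (hperf : ⁅(⊤ : Subgroup T), (⊤ : Subgroup T)⁆ = ⊤)
    (h3 : ¬ p ∣ Nat.card (Subgroup.center T)) (h4 : p ∣ Nat.card T) :
    ¬ ∀ a b : T ⧸ Subgroup.center T, a * b = b * a := by
  intro hc
  have hle : ⁅(⊤ : Subgroup T), (⊤ : Subgroup T)⁆ ≤ Subgroup.center T := by
    rw [Subgroup.commutator_le]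
    intro a _ b _
    rw [← QuotientGroup.eq_one_iff, commutatorElement_def]
    change (a : T ⧸ Subgroup.center T) * b * (a : T ⧸ Subgroup.center T)⁻¹ *
      (b : T ⧸ Subgroup.center T)⁻¹ = 1
    rw [hc (a : T ⧸ Subgroup.center T) b]
    group
  rw [hperf, top_le_iff] at hle
  apply h3
  rw [hle, Subgroup.card_top]
  exact h4

/-- quasisimple groups whose simple quotient has cyclic Sylow `p`-subgroups -/
theorem good_cyclic {T : Type} [Group T] [Finite T]
    (hperf : ⁅(⊤ : Subgroup T), (⊤ : Subgroup T)⁆ = ⊤)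
    (h3 : ¬ p ∣ Nat.card (Subgroup.center T)) (h4 : p ∣ Nat.card T)
    (h : ∀ P : Sylow p (T ⧸ Subgroup.center T), IsCyclic P) : Good p T := by
  by_cases hp2 : p ^ 2 ∣ Nat.card T
  · have hdvd : p ^ 2 ∣ Nat.card (T ⧸ Subgroup.center T) := by
      have h5 := Subgroup.card_eq_card_quotient_mul_card_subgroup (Subgroup.center T)
      rw [h5] at hp2
      have h6 : Nat.Coprime (p ^ 2) (Nat.card (Subgroup.center T)) :=
        Nat.Coprime.pow_left 2 (((Fact.out : p.Prime).coprime_iff_not_dvd).2 h3)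
      exact h6.dvd_of_dvd_mul_right hp2
    exact Pool.Agent.Helper42.CY.pgood_of_cyclic (T ⧸ Subgroup.center T) h hdvd T hperf
      ⟨MulEquiv.refl _⟩ h3
  · exact Pool.Agent.Helper42.IR.F.hII T hperf h4 hp2 h3

/-- quasisimple groups whose simple quotient is alternating or `PSL(2, k)`, or has a split BN-pair -/
theorem good_big (h5 : 5 ≤ p) {T : Type} [Group T] [Finite T]
    (hperf : ⁅(⊤ : Subgroup T), (⊤ : Subgroup T)⁆ = ⊤)
    (h2 : IsSimpleGroup (T ⧸ Subgroup.center T))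
    (h3 : ¬ p ∣ Nat.card (Subgroup.center T)) (h4 : p ∣ Nat.card T)
    (h : (∃ m : ℕ, Nonempty ((T ⧸ Subgroup.center T) ≃* alternatingGroup (Fin m))) ∨
      (∃ (k : Type) (_ : Field k) (_ : Finite k),
        Nonempty ((T ⧸ Subgroup.center T) ≃* Matrix.ProjectiveSpecialLinearGroup (Fin 2) k)) ∨
      (∃ (n : ℕ) (k : Type) (_ : Field k) (_ : Finite k), 3 ≤ n ∧ p ∣ Nat.card k - 1 ∧
        Nonempty ((T ⧸ Subgroup.center T) ≃* Matrix.ProjectiveSpecialLinearGroup (Fin n) k)) ∨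
      ∃ (r : ℕ) (_ : r.Prime) (P U N : Subgroup (T ⧸ Subgroup.center T)),
        Pool.Agent.Helper68.LI.Ch p r P U N) : Good p T := by
  have hp2 : p ≠ 2 := by omega
  have hna := nonab hperf h3 h4
  have key : ((∀ P : Sylow p (T ⧸ Subgroup.center T), IsCyclic P) ∨
      Pool.Agent.Helper24.UN.AP p (T ⧸ Subgroup.center T)) → Good p T := by
    rintro (h | h)
    · exact good_cyclic hperf h3 h4 h
    · rcases h with ⟨m, hm, ⟨e⟩⟩ | ⟨k, _, _, _, _, ⟨e⟩⟩
      · exact Pool.Agent.Helper57.AN.pgood_congr e (Pool.Agent.Helper81.AN.pgood_all p h5 m hm) T hperf ⟨MulEquiv.refl _⟩ h3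
      · exact Pool.Agent.Helper57.AN.pgood_congr e (Pool.Agent.Helper57.PL.pgood_of hp2
          (Pool.Agent.Helper55.PL.slGood p hp2 k)) T hperf ⟨MulEquiv.refl _⟩ h3
  rcases h with ⟨m, ⟨e⟩⟩ | ⟨k, _, _, ⟨e⟩⟩ | ⟨n, k, i1, i2, h6, h7, ⟨e⟩⟩ | ⟨r, hr, P, U, N, h⟩
  · exact key (Pool.Agent.Helper24.UN.alt_fac e)
  · exact key (Pool.Agent.Helper24.UN.psl_fac hp2 e)
  · obtain ⟨P, U, N, hB⟩ := Pool.Agent.Helper68.TS.bn_of_psl h6 h5 h7 h3 e
    exact Pool.Agent.Helper81.TD.good_of_bn T h3 h4 _ h2 hna ⟨MulEquiv.refl _⟩ hB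
  · have : Fact r.Prime := ⟨hr⟩
    obtain ⟨P, U, N, hB⟩ := Pool.Agent.Helper68.LI.bn_of_ch h h3
      (MulEquiv.refl (T ⧸ Subgroup.center T))
    exact Pool.Agent.Helper81.TD.good_of_bn T h3 h4 _ h2 hna ⟨MulEquiv.refl _⟩ hB

end Pool.Agent.Helper81.MR
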